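import Pool.Agent.R55.HJ

/-!
# Critical graphs without a chromatic scheme (MP_98e6b1_co)

For every `k ≥ 8` there is a `k`-critical graph without a chromatic `k`-scheme; and if there is one
for `k` then there is one for `k + 1`.

For `k = 8` the graph is the inflated pentagon with all five cliques of order 3 (Catlin's graph). A
vertex adjacent to all others may be added to a critical graph without a chromatic scheme.
-/

set_option autoImplicit false

namespace Pool.Agent.Results.MP_98e6b1_co.AllLargeK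

open SimpleGraph Pool.Agent.R55.HJ
open Pool.Agent.Results.MP_c17804_co.CriticalJoins (Cr critical_of_cr cr_of_critical)

/-- `G` is `k`-critical: its chromatic number is `k`, and every proper subgraph has smaller
chromatic number. -/
def IsCritical (k : ℕ) {V : Type} (G : SimpleGraph V) : Prop :=
  G.chromaticNumber = (k : ℕ∞) ∧ ∀ S : G.Subgraph, S ≠ ⊤ → S.coe.chromaticNumber < (k : ℕ∞)

/-- `G` has a chromatic `k`-scheme: a proper colouring `f` with `k` colours and vertices `x i` of
colour `i`, such that for any two colours `i < j` some path of `G` from `x i` to `x j` has only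
vertices of the colours `i` and `j` (so these colours alternate along the path). -/
def HasScheme (k : ℕ) {V : Type} (G : SimpleGraph V) : Prop :=
  ∃ (f : G.Coloring (Fin k)) (x : Fin k → V), (∀ i, f (x i) = i) ∧
    ∀ i j, i < j → ∃ p : G.Walk (x i) (x j), p.IsPath ∧ ∀ v ∈ p.support, f v = i ∨ f v = j

/-! ### Two-coloured connections -/

/-- `a` and `b` are joined by a walk with all vertices of colour `i` or `j` (except maybe `a`) -/
def Conn {V : Type} (G : SimpleGraph V) {k : ℕ} (f : V → Fin k) (i j : Fin k) (a b : V) : Prop :=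
  Relation.ReflTransGen (fun u w => G.Adj u w ∧ (f w = i ∨ f w = j)) a b

lemma conn_of_walk {V : Type} {G : SimpleGraph V} {k : ℕ} {f : V → Fin k} {i j : Fin k} {a b : V}
    (p : G.Walk a b) (hp : ∀ v ∈ p.support, f v = i ∨ f v = j) : Conn G f i j a b := by
  induction p with
  | nil => exact Relation.ReflTransGen.refl
  | cons h p ih =>
    refine Relation.ReflTransGen.head ⟨h, ?_⟩ (ih fun v hv => hp v ?_)
    · exact hp _ (by rw [Walk.support_cons]; exact List.mem_cons_of_mem _ p.start_mem_support)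
    · rw [Walk.support_cons]
      exact List.mem_cons_of_mem _ hv

lemma walk_of_conn {V : Type} {G : SimpleGraph V} {k : ℕ} {f : V → Fin k} {i j : Fin k} {a b : V}
    (ha : f a = i ∨ f a = j) (h : Conn G f i j a b) :
    ∃ p : G.Walk a b, p.IsPath ∧ ∀ v ∈ p.support, f v = i ∨ f v = j := by
  classical
  have : ∃ p : G.Walk a b, ∀ v ∈ p.support, f v = i ∨ f v = j := by
    induction h with
    | refl => exact ⟨Walk.nil, by simpa using ha⟩
    | tail _ h ih =>
      obtain ⟨p, hp⟩ := ih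
      refine ⟨p.concat h.1, ?_⟩
      intro v hv
      rw [Walk.support_concat, List.mem_append] at hv
      rcases hv with hv | hv
      · exact hp v hv
      · rw [List.mem_singleton] at hv
        rw [hv]
        exact h.2
  obtain ⟨p, hp⟩ := this
  exact ⟨p.bypass, p.bypass_isPath, fun v hv => hp v (p.support_bypass_subset_support hv)⟩

lemma Conn.closed {V : Type} {G : SimpleGraph V} {k : ℕ} {f : V → Fin k} {i j : Fin k} {a b : V}
    (h : Conn G f i j a b) (S : V → Prop) (ha : S a)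
    (hS : ∀ u w, S u → G.Adj u w → (f w = i ∨ f w = j) → S w) : S b := by
  induction h with
  | refl => exact ha
  | tail _ h ih => exact hS _ _ ih h.1 h.2

/-! ### Adding a vertex adjacent to all others -/

/-- the graph with one new vertex adjacent to all others -/
def cone {V : Type} (G : SimpleGraph V) : SimpleGraph (V ⊕ Unit) := cj G ⊥

lemma cone_cr {q : ℕ} {V : Type} [Fintype V] [Nonempty V] {G : SimpleGraph V}
    (hG : Cr q G) : Cr (q + 1) (cone G) := by
  classical
  refine ⟨?_, ?_, ?_⟩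
  · intro c
    by_contra hcon
    push Not at hcon
    have h1 := card_image_of_noCol hG.1 (fun v => c (Sum.inl v))
      (fun u v huv => hcon (Sum.inl u) (Sum.inl v) (by simpa [cone] using huv))
    have h2 : c (Sum.inr ()) ∉ Finset.univ.image (fun v => c (Sum.inl v)) := by
      rw [Finset.mem_image]
      rintro ⟨a, -, ha⟩
      exact hcon (Sum.inl a) (Sum.inr ()) (by simp [cone]) ha
    have h3 := Finset.card_le_univ (insert (c (Sum.inr ()))
      (Finset.univ.image (fun v => c (Sum.inl v))))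
    rw [Finset.card_insert_of_notMem h2, Fintype.card_fin] at h3
    omega
  · have left : ∀ a b, G.Adj a b → ∃ c : V ⊕ Unit → Fin (q + 1), ∀ u v, (cone G).Adj u v →
        s(u, v) ≠ s(Sum.inl a, Sum.inl b) → c u ≠ c v := by
      intro a b hab
      obtain ⟨c1, hc1⟩ := hG.2.1 a b hab
      refine ⟨Sum.elim (fun v => (c1 v).castSucc) (fun _ => Fin.last q), ?_⟩
      rintro (u | u) (v | v) huv hs he
      · simp only [Sum.elim_inl] at he
        refine hc1 u v huv ?_ (Fin.castSucc_injective _ he)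
        intro h
        apply hs
        have := congrArg (Sym2.map (Sum.inl : V → V ⊕ Unit)) h
        simpa using this
      · exact (Fin.castSucc_lt_last _).ne he
      · exact (Fin.castSucc_lt_last _).ne he.symm
      · exact huv.ne rfl
    have cross : ∀ a, ∃ c : V ⊕ Unit → Fin (q + 1), ∀ u v, (cone G).Adj u v →
        s(u, v) ≠ s(Sum.inl a, Sum.inr ()) → c u ≠ c v := by
      intro a
      obtain ⟨c1, hc1⟩ := Cr.vert hG a
      refine ⟨Sum.elim (fun v => if v = a then Fin.last q else (c1 v).castSucc)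
        (fun _ => Fin.last q), ?_⟩
      rintro (u | u) (v | v) huv hs he
      · simp only [Sum.elim_inl] at he
        by_cases hu : u = a
        · by_cases hv : v = a
          · exact (cone G).ne_of_adj huv (by rw [hu, hv])
          · rw [if_pos hu, if_neg hv] at he
            exact (Fin.castSucc_lt_last _).ne he.symm
        · by_cases hv : v = a
          · rw [if_neg hu, if_pos hv] at he
            exact (Fin.castSucc_lt_last _).ne he
          · rw [if_neg hu, if_neg hv] at he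
            exact hc1 u v hu hv huv (Fin.castSucc_injective _ he)
      · simp only [Sum.elim_inl, Sum.elim_inr] at he
        by_cases hu : u = a
        · exact hs (by rw [hu])
        · rw [if_neg hu] at he
          exact (Fin.castSucc_lt_last _).ne he
      · simp only [Sum.elim_inl, Sum.elim_inr] at he
        by_cases hv : v = a
        · exact hs (by rw [hv]; exact Sym2.eq_swap)
        · rw [if_neg hv] at he
          exact (Fin.castSucc_lt_last _).ne he.symm
      · exact huv.ne rfl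
    rintro (a | a) (b | b) hab
    · exact left a b hab
    · exact cross a
    · obtain ⟨c, hc⟩ := cross b
      exact ⟨c, fun u v huv hs => hc u v huv (by rwa [Sym2.eq_swap (a := Sum.inl b)])⟩
    · exact (hab.ne rfl).elim
  · rintro (v | v)
    · exact ⟨Sum.inr (), by simp [cone]⟩
    · obtain ⟨w⟩ := (inferInstance : Nonempty V)
      exact ⟨Sum.inl w, by simp [cone]⟩

lemma scheme_of_cone {k : ℕ} {V : Type} {G : SimpleGraph V} (h : HasScheme (k + 1) (cone G)) :
    HasScheme k G := by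
  classical
  obtain ⟨f, x, hx, hp⟩ := h
  set c := f (Sum.inr ()) with hc
  have hne : ∀ v : V, f (Sum.inl v) ≠ c := fun v => f.valid (by simp [cone])
  -- colours different from `c`
  have hex : ∀ v : V, ∃ i : Fin k, c.succAbove i = f (Sum.inl v) :=
    fun v => Fin.exists_succAbove_eq (hne v)
  choose g hg using hex
  have hxl : ∀ i : Fin k, ∃ v : V, x (c.succAbove i) = Sum.inl v := by
    intro i
    rcases hxx : x (c.succAbove i) with v | v
    · exact ⟨v, rfl⟩
    · exfalso
      have h1 := hx (c.succAbove i)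
      rw [hxx] at h1
      exact Fin.succAbove_ne c i h1.symm
  choose y hy using hxl
  have hgy : ∀ i, g (y i) = i := by
    intro i
    apply Fin.succAbove_right_injective (p := c)
    show c.succAbove (g (y i)) = c.succAbove i
    rw [hg, ← hy, hx]
  let f' : G.Coloring (Fin k) := Coloring.mk g (by
    intro u v huv he
    have h1 := hg u
    rw [he, hg] at h1
    exact f.valid (v := Sum.inl v) (w := Sum.inl u) (show (cone G).Adj _ _ from huv.symm) h1)
  refine ⟨f', y, hgy, fun i j hij => ?_⟩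
  obtain ⟨p, -, hp2⟩ := hp (c.succAbove i) (c.succAbove j) (Fin.succAbove_lt_succAbove_iff.2 hij)
  have h1 := conn_of_walk p hp2
  rw [hy, hy] at h1
  have key : ∀ z, Conn (cone G) f (c.succAbove i) (c.succAbove j) (Sum.inl (y i)) z →
      ∃ w, z = Sum.inl w ∧ Conn G (fun v => f' v) i j (y i) w := by
    intro z hz
    induction hz with
    | refl => exact ⟨y i, rfl, Relation.ReflTransGen.refl⟩
    | @tail b z _ hz ih =>
      obtain ⟨w, rfl, hw⟩ := ih
      rcases z with z | z
      · refine ⟨z, rfl, hw.tail ⟨hz.1, ?_⟩⟩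
        rcases hz.2 with h | h
        · left
          apply Fin.succAbove_right_injective (p := c)
          show c.succAbove (g z) = c.succAbove i
          rw [hg, h]
        · right
          apply Fin.succAbove_right_injective (p := c)
          show c.succAbove (g z) = c.succAbove j
          rw [hg, h]
      · exfalso
        rcases hz.2 with h | h
        · exact Fin.succAbove_ne c i h.symm
        · exact Fin.succAbove_ne c j h.symm
  obtain ⟨w, hw, hc2⟩ := key _ h1
  rw [← Sum.inl_injective hw] at hc2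
  exact walk_of_conn (Or.inl (hgy i)) hc2

/-! ### The inflated pentagon -/

/-- The inflated pentagon: 15 vertices, the vertex `v` lies in the part `v mod 5`; two vertices are
adjacent if their parts are equal or consecutive. -/
def Cat : SimpleGraph (Fin 15) where
  Adj a b := a ≠ b ∧ (a.val + 2) % 5 ≠ b.val % 5 ∧ (b.val + 2) % 5 ≠ a.val % 5
  symm := ⟨fun _ _ h => ⟨h.1.symm, h.2.2, h.2.1⟩⟩
  loopless := ⟨fun _ h => h.1 rfl⟩

instance : DecidableRel Cat.Adj := fun a b => by
  unfold Cat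
  infer_instance

/-- For each edge a colouring in which this is the only edge with equally coloured ends. -/
def tab : List (ℕ × ℕ × List ℕ) :=
  [(0, 1, [0, 0, 1, 0, 1, 2, 3, 2, 3, 4, 5, 4, 6, 5, 6]),
  (0, 4, [0, 1, 0, 1, 0, 2, 3, 2, 3, 4, 5, 4, 6, 5, 6]),
  (0, 5, [0, 1, 0, 1, 2, 0, 2, 3, 4, 3, 4, 5, 6, 5, 6]),
  (0, 6, [0, 1, 2, 0, 1, 2, 0, 3, 4, 3, 4, 5, 6, 5, 6]),
  (0, 9, [0, 1, 0, 1, 2, 3, 2, 3, 4, 0, 4, 5, 6, 5, 6]),
  (0, 10, [0, 1, 0, 1, 2, 3, 2, 4, 3, 4, 0, 5, 6, 5, 6]),
  (0, 11, [0, 1, 2, 0, 1, 2, 3, 4, 3, 4, 5, 0, 6, 5, 6]),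
  (0, 14, [0, 1, 0, 1, 2, 3, 2, 3, 4, 5, 4, 6, 5, 6, 0]),
  (1, 2, [1, 0, 0, 1, 0, 2, 3, 2, 3, 4, 5, 4, 6, 5, 6]),
  (1, 5, [1, 0, 1, 0, 2, 0, 2, 3, 4, 3, 4, 5, 6, 5, 6]),
  (1, 6, [1, 0, 1, 0, 2, 3, 0, 2, 3, 4, 5, 4, 6, 5, 6]),
  (1, 7, [1, 0, 1, 2, 0, 2, 3, 0, 3, 4, 5, 4, 6, 5, 6]),
  (1, 10, [1, 0, 1, 0, 2, 3, 2, 4, 3, 4, 0, 5, 6, 5, 6]),
  (1, 11, [1, 0, 1, 0, 2, 3, 2, 4, 3, 4, 5, 0, 6, 5, 6]),
  (1, 12, [1, 0, 1, 2, 0, 2, 3, 4, 3, 4, 5, 6, 0, 5, 6]),
  (2, 3, [0, 1, 0, 0, 1, 2, 3, 2, 3, 4, 5, 4, 6, 5, 6]),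
  (2, 6, [1, 2, 0, 1, 0, 3, 0, 3, 2, 4, 5, 4, 6, 5, 6]),
  (2, 7, [0, 1, 0, 1, 2, 3, 2, 0, 3, 4, 5, 4, 6, 5, 6]),
  (2, 8, [0, 1, 0, 1, 2, 3, 2, 3, 0, 4, 5, 4, 6, 5, 6]),
  (2, 11, [1, 2, 0, 1, 0, 3, 4, 3, 2, 4, 5, 0, 6, 5, 6]),
  (2, 12, [0, 1, 0, 1, 2, 3, 2, 4, 3, 4, 5, 6, 0, 5, 6]),
  (2, 13, [0, 1, 0, 1, 2, 3, 2, 3, 4, 5, 4, 5, 6, 0, 6]),
  (3, 4, [1, 0, 1, 0, 0, 2, 3, 2, 3, 4, 5, 4, 6, 5, 6]),
  (3, 7, [0, 1, 2, 0, 1, 2, 3, 0, 3, 4, 5, 4, 6, 5, 6]),
  (3, 8, [0, 1, 2, 0, 1, 2, 3, 4, 0, 3, 4, 5, 6, 5, 6]),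
  (3, 9, [1, 0, 1, 0, 2, 3, 2, 3, 4, 0, 4, 5, 6, 5, 6]),
  (3, 12, [0, 1, 2, 0, 1, 2, 3, 4, 3, 4, 5, 6, 0, 5, 6]),
  (3, 13, [0, 1, 2, 0, 1, 2, 3, 4, 3, 4, 5, 6, 5, 0, 6]),
  (3, 14, [1, 0, 1, 0, 2, 3, 2, 3, 4, 5, 4, 6, 5, 6, 0]),
  (4, 5, [1, 2, 0, 1, 0, 0, 3, 4, 2, 3, 4, 5, 6, 5, 6]),
  (4, 8, [1, 0, 1, 2, 0, 2, 3, 4, 0, 3, 4, 5, 6, 5, 6]),
  (4, 9, [1, 0, 1, 2, 0, 2, 3, 4, 3, 0, 4, 5, 6, 5, 6]),
  (4, 10, [1, 2, 0, 1, 0, 3, 4, 3, 2, 4, 0, 5, 6, 5, 6]),
  (4, 13, [1, 0, 1, 2, 0, 2, 3, 4, 3, 4, 5, 6, 5, 0, 6]),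
  (4, 14, [1, 0, 1, 2, 0, 2, 3, 4, 3, 4, 5, 6, 5, 6, 0]),
  (5, 6, [1, 2, 1, 0, 2, 0, 0, 3, 4, 3, 4, 5, 6, 5, 6]),
  (5, 9, [1, 2, 0, 1, 2, 0, 3, 4, 3, 0, 4, 5, 6, 5, 6]),
  (5, 10, [1, 2, 0, 1, 2, 0, 3, 4, 3, 4, 0, 5, 6, 5, 6]),
  (5, 11, [1, 2, 1, 0, 2, 0, 3, 4, 3, 4, 5, 0, 6, 5, 6]),
  (5, 14, [1, 2, 0, 1, 2, 0, 3, 4, 3, 4, 5, 6, 5, 6, 0]),
  (6, 7, [1, 2, 1, 2, 0, 3, 0, 0, 3, 4, 5, 4, 6, 5, 6]),
  (6, 10, [1, 2, 1, 0, 2, 3, 0, 4, 3, 4, 0, 5, 6, 5, 6]),
  (6, 11, [1, 2, 1, 0, 2, 3, 0, 4, 3, 4, 5, 0, 6, 5, 6]),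
  (6, 12, [1, 2, 1, 2, 0, 3, 0, 4, 3, 4, 5, 6, 0, 5, 6]),
  (7, 8, [0, 1, 2, 1, 2, 3, 4, 0, 0, 4, 5, 6, 3, 5, 6]),
  (7, 11, [1, 2, 1, 2, 0, 3, 4, 0, 3, 4, 5, 0, 6, 5, 6]),
  (7, 12, [0, 1, 2, 1, 2, 3, 4, 0, 3, 4, 5, 6, 0, 5, 6]),
  (7, 13, [0, 1, 2, 1, 2, 3, 4, 0, 3, 4, 5, 6, 5, 0, 6]),
  (8, 9, [1, 0, 1, 2, 3, 2, 3, 4, 0, 0, 4, 5, 6, 5, 6]),
  (8, 12, [0, 1, 2, 1, 2, 3, 4, 3, 0, 4, 5, 6, 0, 5, 6]),
  (8, 13, [0, 1, 2, 1, 2, 3, 4, 3, 0, 4, 5, 6, 5, 0, 6]),
  (8, 14, [1, 0, 1, 2, 3, 2, 3, 4, 0, 4, 5, 6, 5, 6, 0]),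
  (9, 10, [1, 2, 0, 1, 2, 3, 4, 3, 4, 0, 0, 5, 6, 5, 6]),
  (9, 13, [1, 0, 1, 2, 3, 2, 3, 4, 5, 0, 4, 5, 6, 0, 6]),
  (9, 14, [1, 0, 1, 2, 3, 2, 4, 3, 4, 0, 5, 6, 5, 6, 0]),
  (10, 11, [1, 2, 1, 0, 2, 3, 4, 5, 3, 5, 0, 0, 6, 4, 6]),
  (10, 14, [1, 2, 0, 1, 2, 3, 4, 3, 4, 5, 0, 6, 5, 6, 0]),
  (11, 12, [1, 2, 1, 2, 0, 3, 4, 5, 3, 4, 6, 0, 0, 6, 5]),
  (12, 13, [0, 1, 2, 1, 2, 3, 4, 3, 5, 4, 5, 6, 0, 0, 6]),
  (13, 14, [1, 0, 1, 2, 3, 2, 3, 4, 5, 4, 6, 5, 6, 0, 0])]

lemma cat_edges : ∀ a b : Fin 15, a < b → Cat.Adj a b → ∃ r ∈ tab, r.1 = a.val ∧ r.2.1 = b.val ∧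
    ∀ u v : Fin 15, Cat.Adj u v → ¬ ((u = a ∧ v = b) ∨ (u = b ∧ v = a)) →
      (r.2.2.getD u.val 0) % 7 ≠ (r.2.2.getD v.val 0) % 7 := by
  decide +kernel

lemma cat_indep : ∀ a b c : Fin 15, a ≠ b → a ≠ c → b ≠ c →
    Cat.Adj a b ∨ Cat.Adj a c ∨ Cat.Adj b c := by
  decide +kernel

lemma cat_cr : Cr 7 Cat := by
  classical
  have key : ∀ a b, a < b → Cat.Adj a b → ∃ c : Fin 15 → Fin 7, ∀ u v, Cat.Adj u v →
      s(u, v) ≠ s(a, b) → c u ≠ c v := by
    intro a b hab h
    obtain ⟨r, -, -, -, hr⟩ := cat_edges a b hab h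
    refine ⟨fun u => ⟨(r.2.2.getD u.val 0) % 7, Nat.mod_lt _ (by norm_num)⟩, ?_⟩
    intro u v huv hs he
    refine hr u v huv ?_ (congrArg Fin.val he)
    intro hh
    exact hs (Sym2.eq_iff.2 hh)
  refine ⟨?_, ?_, ?_⟩
  · intro c
    obtain ⟨i, -, hi⟩ := Finset.exists_lt_card_fiber_of_mul_lt_card_of_maps_to
      (s := (Finset.univ : Finset (Fin 15))) (t := (Finset.univ : Finset (Fin 7))) (f := c) (n := 2)
      (fun a _ => Finset.mem_univ _) (by simp)
    obtain ⟨a, ha, b, hb, d, hd, hab, had, hbd⟩ := Finset.two_lt_card.1 hi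
    simp only [Finset.mem_filter, Finset.mem_univ, true_and] at ha hb hd
    rcases cat_indep a b d hab had hbd with h | h | h
    · exact ⟨a, b, h, ha.trans hb.symm⟩
    · exact ⟨a, d, h, ha.trans hd.symm⟩
    · exact ⟨b, d, h, hb.trans hd.symm⟩
  · intro a b hab
    rcases lt_trichotomy a b with h | h | h
    · exact key a b h hab
    · exact (hab.ne h).elim
    · obtain ⟨c, hc⟩ := key b a h hab.symm
      exact ⟨c, fun u v huv hs => hc u v huv (by rwa [Sym2.eq_swap (a := b)])⟩
  · decide +kernel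

/-- the part of a vertex -/
def pt (a : Fin 15) : ZMod 5 := (a.val : ZMod 5)

lemma pt_adj : ∀ a b : Fin 15, ¬ Cat.Adj a b ↔ a = b ∨ pt b = pt a + 2 ∨ pt b = pt a + 3 := by
  decide +kernel

lemma pt_card : ∀ i : ZMod 5, (Finset.univ.filter fun a : Fin 15 => pt a = i).card = 3 := by
  decide +kernel

lemma sum_le : ∀ c0 d : Fin 8, d ≠ c0 → (∑ c : Fin 8, if c = c0 ∨ c = d then 1 else 2) ≤ 14 := by
  decide +kernel

lemma zm2 : ∀ i : ZMod 5, i + 2 ≠ i := by decide
lemma zm3 : ∀ i : ZMod 5, i + 3 ≠ i := by decide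
lemma zm4 : ∀ i : ZMod 5, i + 4 ≠ i := by decide
lemma zm1 : ∀ i : ZMod 5, i + 1 ≠ i := by decide

lemma cat_noScheme : ¬ HasScheme 8 Cat := by
  classical
  rintro ⟨f, x, hx, hp⟩
  have hc : ∀ i j, i ≠ j → Conn Cat f i j (x i) (x j) := by
    intro i j hij
    rcases lt_or_gt_of_ne hij with h | h
    · obtain ⟨p, -, hp2⟩ := hp i j h
      exact conn_of_walk p hp2
    · obtain ⟨p, -, hp2⟩ := hp j i h
      refine conn_of_walk p.reverse (fun v hv => ?_)
      rw [Walk.support_reverse, List.mem_reverse] at hv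
      exact (hp2 v hv).symm
  have hna : ∀ a b, f a = f b → ¬ Cat.Adj a b := fun a b h hab => f.valid hab h
  have hparts : ∀ a b, a ≠ b → f a = f b → pt b = pt a + 2 ∨ pt b = pt a + 3 := by
    intro a b hab h
    rcases (pt_adj a b).1 (hna a b h) with h1 | h1
    · exact (hab h1).elim
    · exact h1
  have hfib : ∀ a b w, a ≠ b → f a = f b → f w = f a → w = a ∨ w = b := by
    intro a b w hab h hw
    by_contra hcon
    push Not at hcon
    rcases cat_indep a b w hab hcon.1.symm hcon.2.symm with h1 | h1 | h1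
    · exact hna _ _ h h1
    · exact hna _ _ hw.symm h1
    · exact hna _ _ (h.symm.trans hw.symm) h1
  -- the number of vertices of a colour
  have hcard2 : ∀ c : Fin 8, (Finset.univ.filter fun a => f a = c).card ≤ 2 := by
    intro c
    by_contra hlt
    rw [not_le] at hlt
    obtain ⟨a, ha, b, hb, d, hd, hab, had, hbd⟩ := Finset.two_lt_card.1 hlt
    simp only [Finset.mem_filter, Finset.mem_univ, true_and] at ha hb hd
    rcases hfib a b d hab (ha.trans hb.symm) (hd.trans ha.symm) with h | h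
    · exact had h.symm
    · exact hbd h.symm
  have hsum : ∑ c : Fin 8, (Finset.univ.filter fun a => f a = c).card = 15 := by
    rw [← Finset.card_eq_sum_card_fiberwise (s := (Finset.univ : Finset (Fin 15)))
      (fun a _ => Finset.mem_coe.2 (Finset.mem_univ (f a)))]
    simp
  obtain ⟨c0, hc0⟩ : ∃ c : Fin 8, (Finset.univ.filter fun a => f a = c).card ≤ 1 := by
    by_contra hcon
    push Not at hcon
    have : ∑ c : Fin 8, 2 ≤ ∑ c : Fin 8, (Finset.univ.filter fun a => f a = c).card :=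
      Finset.sum_le_sum (fun c _ => hcon c)
    rw [hsum] at this
    simp at this
  have hone : ∀ w, f w = c0 → w = x c0 := by
    intro w hw
    exact Finset.card_le_one.1 hc0 w (by simp [hw]) (x c0) (by simp [hx])
  have htwo : ∀ u, u ≠ x c0 → ∃ w, w ≠ u ∧ f w = f u := by
    intro u hu
    by_contra hcon
    push Not at hcon
    have hfu : f u ≠ c0 := fun h => hu (hone u h)
    have h1 : (Finset.univ.filter fun a => f a = f u).card ≤ 1 := by
      rw [Finset.card_le_one]
      intro a ha b hb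
      simp only [Finset.mem_filter, Finset.mem_univ, true_and] at ha hb
      have e1 : a = u := by
        by_contra h
        exact hcon a h ha
      have e2 : b = u := by
        by_contra h
        exact hcon b h hb
      rw [e1, e2]
    have h2 : ∑ c : Fin 8, (Finset.univ.filter fun a => f a = c).card ≤
        ∑ c : Fin 8, if c = c0 ∨ c = f u then 1 else 2 := by
      refine Finset.sum_le_sum (fun c _ => ?_)
      split_ifs with h
      · rcases h with rfl | rfl
        · exact hc0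
        · exact h1
      · exact hcard2 c
    have h3 := sum_le c0 (f u) hfu
    rw [hsum] at h2
    omega
  choose! g hg1 hg2 using htwo
  have hginj : ∀ u w, u ≠ x c0 → w ≠ x c0 → g u = g w → u = w := by
    intro u w hu hw h
    by_contra hne
    have e1 := hg2 u hu
    have e2 := hg2 w hw
    rw [h, e2] at e1
    rcases hfib w u (g w) (Ne.symm hne) e1 e2 with h1 | h1
    · exact hg1 w hw h1
    · exact hg1 u hu (h.trans h1)
  have hgv : ∀ u, u ≠ x c0 → g u ≠ x c0 := by
    intro u hu h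
    have := hg2 u hu
    rw [h, hx] at this
    exact hu (hone u this.symm)
  have hL : ∀ S T : Finset (Fin 15), x c0 ∉ S → (∀ u ∈ S, g u ∈ T) → S.card ≤ T.card := by
    intro S T hS hT
    refine Finset.card_le_card_of_injOn g (fun u hu => hT u hu) ?_
    intro u hu w hw h
    exact hginj u w (fun h => hS (h ▸ hu)) (fun h => hS (h ▸ hw)) h
  set i := pt (x c0) with hi
  have hPS : ∀ j, j ≠ i → x c0 ∉ Finset.univ.filter fun a => pt a = j := by
    intro j hj h
    simp only [Finset.mem_filter, Finset.mem_univ, true_and] at h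
    exact hj h.symm
  have hcardT : ((Finset.univ.filter fun a => pt a = i).erase (x c0)).card = 2 := by
    rw [Finset.card_erase_of_mem (by simp [hi]), pt_card]
  have hgp : ∀ u, u ≠ x c0 → pt (g u) = pt u + 2 ∨ pt (g u) = pt u + 3 := fun u hu =>
    hparts u (g u) (hg1 u hu).symm (hg2 u hu).symm
  have hne : ∀ u j, pt u = j → j ≠ i → u ≠ x c0 := by
    rintro u j h1 h2 rfl
    exact h2 h1.symm
  -- the class with parts `i + 2`, `i + 4`
  obtain ⟨a2, a4, haf, ha2, ha4⟩ : ∃ a b, f a = f b ∧ pt a = i + 2 ∧ pt b = i + 4 := by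
    by_contra hcon
    push Not at hcon
    have h2i : (i + 2 : ZMod 5) ≠ i := zm2 i
    have := hL (Finset.univ.filter fun a => pt a = i + 2)
      ((Finset.univ.filter fun a => pt a = i).erase (x c0)) (hPS _ h2i) (by
        intro u hu
        simp only [Finset.mem_filter, Finset.mem_univ, true_and] at hu
        have hux := hne u _ hu h2i
        rw [Finset.mem_erase]
        refine ⟨hgv u hux, ?_⟩
        simp only [Finset.mem_filter, Finset.mem_univ, true_and]
        have h1 := hcon u (g u) (hg2 u hux).symm hu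
        have h2 := hgp u hux
        rw [hu] at h2
        have aux : ∀ i b : ZMod 5, b ≠ i + 4 → (b = i + 2 + 2 ∨ b = i + 2 + 3) → b = i := by
          decide
        exact aux i _ h1 h2)
    rw [pt_card, hcardT] at this
    omega
  -- the class with parts `i + 3`, `i + 1`
  obtain ⟨c3, c1, hcf, hc3, hc1⟩ : ∃ a b, f a = f b ∧ pt a = i + 3 ∧ pt b = i + 1 := by
    by_contra hcon
    push Not at hcon
    have h2i : (i + 3 : ZMod 5) ≠ i := zm3 i
    have := hL (Finset.univ.filter fun a => pt a = i + 3)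
      ((Finset.univ.filter fun a => pt a = i).erase (x c0)) (hPS _ h2i) (by
        intro u hu
        simp only [Finset.mem_filter, Finset.mem_univ, true_and] at hu
        have hux := hne u _ hu h2i
        rw [Finset.mem_erase]
        refine ⟨hgv u hux, ?_⟩
        simp only [Finset.mem_filter, Finset.mem_univ, true_and]
        have h1 := hcon u (g u) (hg2 u hux).symm hu
        have h2 := hgp u hux
        rw [hu] at h2
        have aux : ∀ i b : ZMod 5, b ≠ i + 1 → (b = i + 3 + 2 ∨ b = i + 3 + 3) → b = i := by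
          decide
        exact aux i _ h1 h2)
    rw [pt_card, hcardT] at this
    omega
  -- the class with parts `i + 4`, `i + 1`
  obtain ⟨b4, b1, hbf, hb4, hb1⟩ : ∃ a b, f a = f b ∧ pt a = i + 4 ∧ pt b = i + 1 := by
    by_contra hcon
    push Not at hcon
    have h4i : (i + 4 : ZMod 5) ≠ i := zm4 i
    have h1i : (i + 1 : ZMod 5) ≠ i := zm1 i
    have hd1 : Disjoint (Finset.univ.filter fun a => pt a = i + 4)
        (Finset.univ.filter fun a => pt a = i + 1) := by
      rw [Finset.disjoint_filter]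
      intro a _ h1 h2
      rw [h1] at h2
      have : ∀ i : ZMod 5, i + 4 ≠ i + 1 := by decide
      exact this i h2
    have hd2 : Disjoint ((Finset.univ.filter fun a => pt a = i + 4) ∪
        (Finset.univ.filter fun a => pt a = i + 1))
        ((Finset.univ.filter fun a => pt a = i).erase (x c0)) := by
      rw [Finset.disjoint_left]
      intro a h1 h2
      rw [Finset.mem_union] at h1
      rw [Finset.mem_erase] at h2
      simp only [Finset.mem_filter, Finset.mem_univ, true_and] at h1 h2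
      rcases h1 with h1 | h1
      · exact h4i (h1.symm.trans h2.2)
      · exact h1i (h1.symm.trans h2.2)
    have hd3 : ((Finset.univ.filter fun a : Fin 15 => pt a = i + 2) ∪
        (Finset.univ.filter fun a => pt a = i + 3)).card ≤ 6 := by
      refine (Finset.card_union_le _ _).trans ?_
      rw [pt_card, pt_card]
    have := hL (((Finset.univ.filter fun a => pt a = i + 4) ∪
        (Finset.univ.filter fun a => pt a = i + 1)) ∪
        ((Finset.univ.filter fun a => pt a = i).erase (x c0)))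
      ((Finset.univ.filter fun a => pt a = i + 2) ∪ (Finset.univ.filter fun a => pt a = i + 3))
      (by
        simp only [Finset.mem_union, Finset.mem_filter, Finset.mem_univ, true_and,
          Finset.mem_erase, ne_eq, not_true_eq_false, false_and, or_false]
        rintro (h | h)
        · exact h4i h.symm
        · exact h1i h.symm)
      (by
        intro u hu
        simp only [Finset.mem_union, Finset.mem_filter, Finset.mem_univ, true_and,
          Finset.mem_erase] at hu ⊢
        rcases hu with (hu | hu) | ⟨hu1, hu⟩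
        · have hux := hne u _ hu h4i
          have h1 := hcon u (g u) (hg2 u hux).symm hu
          have h2 := hgp u hux
          rw [hu] at h2
          have aux : ∀ i b : ZMod 5, b ≠ i + 1 → (b = i + 4 + 2 ∨ b = i + 4 + 3) →
            b = i + 2 ∨ b = i + 3 := by decide
          exact aux i _ h1 h2
        · have hux := hne u _ hu h1i
          have h1 : pt (g u) ≠ i + 4 := fun h => hcon (g u) u (hg2 u hux) h hu
          have h2 := hgp u hux
          rw [hu] at h2
          have aux : ∀ i b : ZMod 5, b ≠ i + 4 → (b = i + 1 + 2 ∨ b = i + 1 + 3) →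
            b = i + 2 ∨ b = i + 3 := by decide
          exact aux i _ h1 h2
        · have h2 := hgp u hu1
          rwa [hu] at h2)
    rw [Finset.card_union_of_disjoint hd2, Finset.card_union_of_disjoint hd1, pt_card, pt_card,
      hcardT] at this
    omega
  -- two vertices whose parts differ by two are not adjacent
  have nadj : ∀ a b, (pt b = pt a + 2 ∨ pt b = pt a + 3) → ¬ Cat.Adj a b :=
    fun a b h => (pt_adj a b).2 (Or.inr h)
  have hA : a2 ≠ a4 := by
    rintro rfl
    have : ∀ i : ZMod 5, i + 2 ≠ i + 4 := by decide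
    exact this i (ha2.symm.trans ha4)
  have hB : b4 ≠ b1 := by
    rintro rfl
    have : ∀ i : ZMod 5, i + 4 ≠ i + 1 := by decide
    exact this i (hb4.symm.trans hb1)
  have hC : c3 ≠ c1 := by
    rintro rfl
    have : ∀ i : ZMod 5, i + 3 ≠ i + 1 := by decide
    exact this i (hc3.symm.trans hc1)
  have fx0 : f (x c0) = c0 := hx c0
  have nA : f a2 ≠ c0 := by
    intro h
    have := hone _ h
    rw [this] at ha2
    have aux : ∀ i : ZMod 5, i ≠ i + 2 := by decide
    exact aux i ha2
  have nC : f c3 ≠ c0 := by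
    intro h
    have := hone _ h
    rw [this] at hc3
    have aux : ∀ i : ZMod 5, i ≠ i + 3 := by decide
    exact aux i hc3
  have nAB : f a2 ≠ f b4 := by
    intro h
    rcases hfib a2 a4 b1 hA haf (hbf.symm.trans h.symm) with h1 | h1
    · rw [h1, ha2] at hb1
      have aux : ∀ i : ZMod 5, i + 2 ≠ i + 1 := by decide
      exact aux i hb1
    · rw [h1, ha4] at hb1
      have aux : ∀ i : ZMod 5, i + 4 ≠ i + 1 := by decide
      exact aux i hb1
  have nCB : f c3 ≠ f b4 := by
    intro h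
    rcases hfib b4 b1 c3 hB hbf h with h1 | h1
    · rw [h1, hb4] at hc3
      have aux : ∀ i : ZMod 5, i + 4 ≠ i + 3 := by decide
      exact aux i hc3
    · rw [h1, hb1] at hc3
      have aux : ∀ i : ZMod 5, i + 1 ≠ i + 3 := by decide
      exact aux i hc3
  have a42 : ∀ i : ZMod 5, (i + 1 = i + 4 + 2 ∨ i + 1 = i + 4 + 3) ∧
      (i + 2 = i + 4 + 2 ∨ i + 2 = i + 4 + 3) ∧ (i + 4 = i + 1 + 2 ∨ i + 4 = i + 1 + 3) ∧
      (i + 3 = i + 1 + 2 ∨ i + 3 = i + 1 + 3) := by decide
  obtain ⟨q1, q2, q3, q4⟩ := a42 i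
  -- the representative of the first class
  have r1 : x (f a2) = a4 := by
    have := (hc c0 (f a2) nA.symm).closed (fun z => z = x c0 ∨ z = a4) (Or.inl rfl) (by
      rintro u w (rfl | rfl) huw hw
      · rcases hw with hw | hw
        · exact Or.inl (hone w hw)
        · rcases hfib a2 a4 w hA haf hw with rfl | rfl
          · exact (nadj _ _ (Or.inl ha2) huw).elim
          · exact Or.inr rfl
      · rcases hw with hw | hw
        · exact Or.inl (hone w hw)
        · exact (hna _ _ (haf.symm.trans hw.symm) huw).elim)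
    rcases this with h | h
    · exfalso
      apply nA
      rw [← hx (f a2), h, fx0]
    · exact h
  have r3 : x (f c3) = c1 := by
    have := (hc c0 (f c3) nC.symm).closed (fun z => z = x c0 ∨ z = c1) (Or.inl rfl) (by
      rintro u w (rfl | rfl) huw hw
      · rcases hw with hw | hw
        · exact Or.inl (hone w hw)
        · rcases hfib c3 c1 w hC hcf hw with rfl | rfl
          · exact (nadj _ _ (Or.inr hc3) huw).elim
          · exact Or.inr rfl
      · rcases hw with hw | hw
        · exact Or.inl (hone w hw)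
        · exact (hna _ _ (hcf.symm.trans hw.symm) huw).elim)
    rcases this with h | h
    · exfalso
      apply nC
      rw [← hx (f c3), h, fx0]
    · exact h
  have r2 : x (f b4) = b4 := by
    have := (hc (f a2) (f b4) nAB).closed (fun z => z = a4 ∨ z = b4) (Or.inl r1) (by
      rintro u w (rfl | rfl) huw hw
      · rcases hw with hw | hw
        · exact (hna _ _ (haf.symm.trans hw.symm) huw).elim
        · rcases hfib b4 b1 w hB hbf hw with rfl | rfl
          · exact Or.inr rfl
          · exact (nadj _ _ (by rw [hb1, ha4]; exact q1) huw).elim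
      · rcases hw with hw | hw
        · rcases hfib a2 a4 w hA haf hw with rfl | rfl
          · exact (nadj _ _ (by rw [hb4, ha2]; exact q2) huw).elim
          · exact Or.inl rfl
        · exact (hna _ _ hw.symm huw).elim)
    rcases this with h | h
    · exfalso
      apply nAB
      rw [← hx (f b4), h, haf]
    · exact h
  have r2' : x (f b4) = b1 := by
    have := (hc (f c3) (f b4) nCB).closed (fun z => z = c1 ∨ z = b1) (Or.inl r3) (by
      rintro u w (rfl | rfl) huw hw
      · rcases hw with hw | hw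
        · exact (hna _ _ (hcf.symm.trans hw.symm) huw).elim
        · rcases hfib b4 b1 w hB hbf hw with rfl | rfl
          · exact (nadj _ _ (by rw [hc1, hb4]; exact q3) huw).elim
          · exact Or.inr rfl
      · rcases hw with hw | hw
        · rcases hfib c3 c1 w hC hcf hw with rfl | rfl
          · exact (nadj _ _ (by rw [hb1, hc3]; exact q4) huw).elim
          · exact Or.inl rfl
        · exact (hna _ _ (hbf.symm.trans hw.symm) huw).elim)
    rcases this with h | h
    · exfalso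
      apply nCB
      rw [← hx (f b4), h, hcf]
    · exact h
  exact hB (r2.symm.trans r2')

/-! ### The result -/

lemma scheme_comap {k : ℕ} {V W : Type} {G : SimpleGraph V} (e : W ≃ V)
    (h : HasScheme k (G.comap e)) : HasScheme k G := by
  obtain ⟨f, x, hx, hp⟩ := h
  let φ : G.comap e →g G := ⟨e, fun h => h⟩
  let f' : G.Coloring (Fin k) := Coloring.mk (fun v => f (e.symm v)) (by
    intro u v huv
    exact f.valid (show (G.comap e).Adj _ _ by simpa using huv))
  refine ⟨f', fun i => e (x i), fun i => by show f (e.symm (e (x i))) = i; simp [hx], ?_⟩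
  intro i j hij
  obtain ⟨p, hpp, hp2⟩ := hp i j hij
  refine ⟨p.map φ, ?_, ?_⟩
  · exact Walk.map_isPath_of_injective e.injective hpp
  · intro v hv
    rw [Walk.support_map, List.mem_map] at hv
    obtain ⟨w, hw, rfl⟩ := hv
    have : f' (φ w) = f w := by
      show f (e.symm (e w)) = f w
      simp
    rw [this]
    exact hp2 w hw

/-- There is a `k`-critical graph without a chromatic `k`-scheme. -/
def Counterexample (k : ℕ) : Prop :=
  ∃ (n : ℕ) (G : SimpleGraph (Fin n)), IsCritical k G ∧ ¬ HasScheme k G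

lemma step {k : ℕ} (h : Counterexample (k + 2)) : Counterexample (k + 3) := by
  obtain ⟨n, G, h1, h2⟩ := h
  have h3 : Cr (k + 1) G := cr_of_critical (by omega) h1
  have hne : Nonempty (Fin n) := by
    by_contra hcon
    rw [not_nonempty_iff] at hcon
    obtain ⟨u, -⟩ := h3.1 (fun v => (hcon.false v).elim)
    exact hcon.false u
  have h4 := cone_cr h3
  have hcard : Fintype.card (Fin (n + 1)) = Fintype.card (Fin n ⊕ Unit) := by simp
  have e := Fintype.equivOfCardEq hcard
  exact ⟨n + 1, (cone G).comap e, critical_of_cr (by omega) (cr_comap h4 e),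
    fun h => h2 (scheme_of_cone (scheme_comap e h))⟩

/-- **Critical graphs without a chromatic scheme.** For every `k ≥ 8` there is a `k`-critical graph
without a chromatic `k`-scheme; and if `k ≥ 2` has this property, so has `k + 1`. -/
theorem result :
    (∀ k : ℕ, 8 ≤ k → ∃ (n : ℕ) (G : SimpleGraph (Fin n)), IsCritical k G ∧ ¬ HasScheme k G) ∧
    (∀ k : ℕ, 2 ≤ k → (∃ (n : ℕ) (G : SimpleGraph (Fin n)), IsCritical k G ∧ ¬ HasScheme k G) →
      ∃ (n : ℕ) (G : SimpleGraph (Fin n)), IsCritical (k + 1) G ∧ ¬ HasScheme (k + 1) G) := by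
  have h2 : ∀ k : ℕ, 2 ≤ k → Counterexample k → Counterexample (k + 1) := by
    intro k hk h
    obtain ⟨j, rfl⟩ := Nat.exists_eq_add_of_le' hk
    exact step h
  refine ⟨fun k hk => ?_, h2⟩
  have : Counterexample k := by
    induction k, hk using Nat.le_induction with
    | base => exact ⟨15, Cat, critical_of_cr (by norm_num) cat_cr, cat_noScheme⟩
    | succ k hk ih => exact h2 k (by omega) ih
  exact this

end Pool.Agent.Results.MP_98e6b1_co.AllLargeK
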